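import Mathlib
import Pool.Agent.R930.KMain

/-!
# Tate classes on the products of powers of an abelian variety with arbitrary varieties

Let `A` be an abelian variety over a finitely generated field `k` of any characteristic, `ℓ` a prime
number different from it, `V = V_ℓ(A)` the rational Tate module with the action `ρ` of the Galois
group `Γ`, `b` a basis of the lattice `T_ℓ(A)`, `χ` the cyclotomic character and `ω` the Weil pairing
of a polarization; `K` is the algebraic closure of `ℚ_ℓ` and `X = K ⊗ V`. By theorems of Zarhin, Mori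
and Faltings `V` is semisimple, also over finite extensions of `k`, and the endomorphisms of `V`
which commute with the Galois group come from endomorphisms of `A`.

Let `Z` be another abelian variety, or any smooth projective variety, over `k`, and let `W` be the
cohomology group `H ^ b(Z)(r)` with the action `τ` of `Γ`.  The Künneth component
`H ^ a(A ^ n) ⊗ H ^ b(Z)(r)` of `H ^ 2r(A ^ n × Z)(r)`, `a + b = 2 r`, is the space of the alternating forms
`f` in `a` variables on `V ^ n` with values in `W`, and `f` is a Tate class if and only if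
`f (ρ(s) v_1, ..., ρ(s) v_a) = τ(s) f(v_1, ..., v_a)` for all `s` in a subgroup of finite index
(`IsMixedClass`).

We suppose that the Frobenius elements with two slopes for `A` are dense in `Γ` (`IsTwoSlope`, see
`Pool/Agent/R930/Frob.lean` and `Pool/Agent/R930/Two.lean`), for instance that `A` is ordinary and `k` has
positive characteristic, and that all strongly irreducible subspaces `U` of `X` are symplectic of
dimension `4` or `2` modulo `4`: the simple factors `B` of `A` over the separable closure of `k` are of
type I or II in the classification of Albert, and the relative dimension of `B` is odd or two.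

Suppose that the Galois action on `W` is potentially abelian, or, much more generally, that for every
piece `U` every subgroup of finite index contains an element which acts trivially on `W`, with `χ = 1`,
and which acts nontrivially on `U`.  This holds

* if `Z` is an abelian variety with complex multiplication or a supersingular abelian variety, or if `k`
  has positive characteristic and `Z` is defined over a finite field, or if `Z` has the cohomology of a
  cellular variety;
* if for every `U` there is a place of `k` (a discrete valuation ring with fraction field `k` and residue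
  characteristic different from `ℓ`) at which `Z` has potentially good reduction and at which an inertia
  group acts on `U` through an infinite group;
* if the Lie algebras of the images of `Γ` in `GL(V)` and `GL(W)` have no common nonabelian quotient.

The theorem: all Tate classes in `H ^ 2m(A ^ n) ⊗ H ^ b(Z)(r)`, `2 m + b = 2 r`, are linear combinations
of products of a Tate class of `Z`, in `H ^ 2(r-m)(Z)(r-m)`, and of `m` Tate classes of degree two on
`A ^ n`, which are classes of divisors; and there are no Tate classes in `H ^ a(A ^ n) ⊗ H ^ b(Z)(r)`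
for odd `a`.  So the Tate conjecture for `Z` over all finite extensions of `k` implies the Tate conjecture
for all the varieties `A ^ n × Z`, for instance for the abelian varieties `A ^ n × B` where `B` is an
abelian variety for which the Tate conjecture is known and which satisfies one of these conditions.

The proof.  Let `N` be the kernel of `Γ` on `W` and on `χ`. It is a normal subgroup, in general of
infinite index, without Frobenius elements.  The Lie algebra `𝔫` of the operators that kill all forms
invariant under a subgroup of finite index of `N` is contained in the Lie algebra `𝔤` for `Γ`.  Every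
element of `N` which acts nontrivially on a piece `U`, and is sufficiently close to one, gives an element of
`𝔫` that is not zero on `U`: the logarithm of its unipotent part or an operator with the same eigenspaces
as its semisimple part (`Pool/Agent/R930/Jordan.lean`).  As `𝔤` contains all operators `u ↦ ω(v, u) v` on
`U`, and `𝔫` is normalized by `𝔤` (this uses a form of degree four, `Pool/Agent/R930/Ideal.lean`), `𝔫`
contains them as well.  The slope operators of Frobenius elements normalize every space of operators
which is stable under `Γ` (`Pool/Agent/R930/Nrm.lean`); the component in degree one of such an operator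
is a square-zero element of `𝔫` of rank one on `U`.  By Schur's lemma all operators that commute with
a subgroup of finite index of `N` commute with a subgroup of finite index of `Γ`
(`Pool/Agent/R930/Comm.lean`), so that the forms on `X` invariant under a subgroup of finite index of `N`
are generated in degree two by Tate forms for `Γ`.  Classes of odd degree are excluded by a slope operator.
-/

namespace Pool.Agent.Results.MP_7b53ad_ag.ProductsWithVarieties

open Module TensorProduct Pool.Agent.Y126.Notions Pool.Agent.R930

noncomputable section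

/-- All strongly irreducible subspaces are symplectic, and their dimensions are two modulo four, or
four. -/
def SymplecticPieces {K X Γ : Type} [Field K] [AddCommGroup X] [Module K X] [Group Γ]
    (R : Representation K Γ X) (χ : Γ →* K) : Prop :=
  ∀ U, StronglyIrreducible R U → IsSymplectic R χ U ∧ (finrank K U % 4 = 2 ∨ finrank K U = 4)

/-- A subgroup of finite index acts through an abelian group. -/
def PotentiallyAbelian {k W Γ : Type} [Field k] [AddCommGroup W] [Module k W] [Group Γ]
    (τ : Representation k Γ W) : Prop :=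
  ∃ Δ : Subgroup Γ, Δ.FiniteIndex ∧ ∀ g ∈ Δ, ∀ h ∈ Δ, τ g * τ h = τ h * τ g

/-- For every strongly irreducible subspace `U` every subgroup of finite index contains an element that
acts trivially on `W`, with `χ = 1`, and nontrivially on `U`. -/
def KernelActs {k K W X Γ : Type} [Field k] [AddCommGroup W] [Module k W] [Field K]
    [AddCommGroup X] [Module K X] [Group Γ] (R : Representation K Γ X) (χ : Γ →* K)
    (τ : Representation k Γ W) : Prop :=
  ∀ U, StronglyIrreducible R U → ∀ Δ : Subgroup Γ, Δ.FiniteIndex →
    ∃ g ∈ Δ, τ g = 1 ∧ χ g = 1 ∧ ∃ u ∈ U, R g u ≠ u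

section classes

variable {k V W Γ : Type} [Field k] [AddCommGroup V] [Module k V] [AddCommGroup W] [Module k W]
  [Group Γ]

/-- A Tate class in a Künneth component: an alternating form on `V ^ n` with values in `W` which is
equivariant for a subgroup of finite index. -/
def IsMixedClass (ρ : Representation k Γ V) (τ : Representation k Γ W) {n : ℕ} {ι : Type}
    (f : (Fin n → V) [⋀^ι]→ₗ[k] W) : Prop :=
  ∃ Δ : Subgroup Γ, Δ.FiniteIndex ∧ ∀ s ∈ Δ, ∀ v : ι → Fin n → V,
    f (fun l i => ρ s (v l i)) = τ s (f v)

/-- The Tate classes in the Künneth components of odd degree are zero, and the Tate classes in the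
Künneth components of degree `2 m` are linear combinations of products of `m` Tate classes of degree two
on `A ^ n` and of a Tate class `w` of `Z`. -/
def KuennethGenerated (ρ : Representation k Γ V) (χ : Γ →* k) (τ : Representation k Γ W) : Prop :=
  (∀ (n a : ℕ), Odd a → ∀ f : (Fin n → V) [⋀^Fin a]→ₗ[k] W, IsMixedClass ρ τ f → f = 0) ∧
  ∀ (n m : ℕ) (f : (Fin n → V) [⋀^Fin m × Fin 2]→ₗ[k] W), IsMixedClass ρ τ f →
    f ∈ Submodule.span k {g : (Fin n → V) [⋀^Fin m × Fin 2]→ₗ[k] W |
      ∃ B : Fin m → (Fin n → V) [⋀^Fin 2]→ₗ[k] k, (∀ l, IsTateClassTwo ρ χ (B l)) ∧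
        ∃ w : W, (∃ Δ : Subgroup Γ, Δ.FiniteIndex ∧ ∀ s ∈ Δ, τ s w = χ s ^ m • w) ∧
        ∀ v, g v = (∑ σ : Equiv.Perm (Fin m × Fin 2), ((Equiv.Perm.sign σ : ℤ) : k) *
          ∏ l, B l ![v (σ (l, 0)), v (σ (l, 1))]) • w}

end classes

open Pool.Agent.H204R3.SP Pool.Agent.H204R3.GP Pool.Agent.W522.U Pool.Agent.Y126.Toric

theorem result (ℓ : ℕ) [Fact ℓ.Prime] {V W Γ : Type} [AddCommGroup V] [Module ℚ_[ℓ] V]
    [FiniteDimensional ℚ_[ℓ] V] [AddCommGroup W] [Module ℚ_[ℓ] W] [FiniteDimensional ℚ_[ℓ] W]
    [Group Γ] [TopologicalSpace Γ] [IsTopologicalGroup Γ]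
    (ρ : Representation ℚ_[ℓ] Γ V) (χ : Γ →* ℚ_[ℓ])
    (ω : V →ₗ[ℚ_[ℓ]] V →ₗ[ℚ_[ℓ]] ℚ_[ℓ]) (halt : ∀ v, ω v v = 0)
    (hnondeg : ∀ u, (∀ v, ω v u = 0) → u = 0)
    (hω : ∀ s u v, ω (ρ s u) (ρ s v) = χ s * ω u v)
    (hsemisimple : PotentiallySemisimple ρ)
    {n : ℕ} (b : Basis (Fin n) ℚ_[ℓ] V)
    (hintegral : ∀ g i j, ‖LinearMap.toMatrix b b (ρ g) i j‖ ≤ 1)
    (hcontinuous : ∀ i j, Continuous fun g => LinearMap.toMatrix b b (ρ g) i j)
    (hfrobenius : Dense {γ | IsTwoSlope ρ χ γ})
    (hpieces : SymplecticPieces (extend (AlgebraicClosure ℚ_[ℓ]) ρ)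
      ((algebraMap ℚ_[ℓ] (AlgebraicClosure ℚ_[ℓ]) : ℚ_[ℓ] →* _).comp χ))
    (τ : Representation ℚ_[ℓ] Γ W)
    (hW : PotentiallyAbelian τ ∨ KernelActs (extend (AlgebraicClosure ℚ_[ℓ]) ρ)
      ((algebraMap ℚ_[ℓ] (AlgebraicClosure ℚ_[ℓ]) : ℚ_[ℓ] →* _).comp χ) τ) :
    KuennethGenerated ρ χ τ := by
  -- the condition on `W`
  have hker : ∀ U, SI (bcr ρ (AlgebraicClosure ℚ_[ℓ])) U → ∀ Δ : Subgroup Γ, Δ.FiniteIndex →
      ∃ g ∈ Δ, g ∈ MonoidHom.ker τ ⊓ MonoidHom.ker χ ∧ χ g = 1 ∧
        ∃ u ∈ U, bcr ρ (AlgebraicClosure ℚ_[ℓ]) g u ≠ u := by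
    intro U hU Δ hΔ
    rcases hW with ⟨Δ₀, hΔ₀, hab⟩ | h
    · obtain ⟨g, hg, h, hh, u, hu, hne⟩ := comm_acts hU (altDual_two_le (hpieces U hU).1)
        (Δ ⊓ Δ₀) inferInstance
      refine ⟨g * h * g⁻¹ * h⁻¹, Δ.mul_mem (Δ.mul_mem (Δ.mul_mem hg.1 hh.1) (Δ.inv_mem hg.1))
        (Δ.inv_mem hh.1), ?_, comm_char χ g h, u, hu, hne⟩
      exact (mem_kk τ χ _).2 ⟨comm_kernel (hab g hg.2 h hh.2), comm_char χ g h⟩
    · obtain ⟨g, hg, h1, h2, h3⟩ := h U hU Δ hΔ
      have h4 : χ g = 1 := (algebraMap ℚ_[ℓ] (AlgebraicClosure ℚ_[ℓ])).injective (by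
        rw [map_one]; exact h2)
      exact ⟨g, hg, (mem_kk τ χ _).2 ⟨h1, h4⟩, h4, h3⟩
  -- the kernel
  obtain ⟨N, hNd⟩ : ∃ N : Subgroup Γ, N = MonoidHom.ker τ ⊓ MonoidHom.ker χ := ⟨_, rfl⟩
  have hNn : N.Normal := by rw [hNd]; infer_instance
  have hNk : ∀ g ∈ N, τ g = 1 ∧ χ g = 1 := fun g hg => (mem_kk τ χ g).1 (by rw [← hNd]; exact hg)
  rw [← hNd] at hker
  have hK := kern_pieces ω halt hnondeg hω hsemisimple hintegral hcontinuous hfrobenius hpieces
    N hNn hker
  refine ⟨fun n a ha f hf => ?_, fun n m f hf => ?_⟩
  · obtain ⟨x, hxx, hx⟩ := slope_kern ω halt hnondeg hω hsemisimple hK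
    exact mixed_odd hxx hx hNk ha f hf
  · exact mixed_even (generated_kern (gen_kern (core_kern' ω halt hnondeg hω hsemisimple hK)))
      (fun B hB => tate2_kern ω halt hnondeg hω hsemisimple hK hB) hNk f hf

end

end Pool.Agent.Results.MP_7b53ad_ag.ProductsWithVarieties
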