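import Mathlib
import Pool.Agent.R855.MT.One
import Pool.Agent.Y126.Glue

/-!
# Tate classes on all powers of abelian varieties over finitely generated fields, from several places

Let `A` be an abelian variety over a finitely generated field of any characteristic, `ℓ` a prime
number different from the characteristic, `V = V_ℓ(A)` the rational Tate module with the action `ρ`
of the Galois group `Γ`, `χ` the cyclotomic character and `ω` the Weil pairing of a polarization; `K` is
the algebraic closure of `ℚ_ℓ` and `X = K ⊗ V`. By theorems of Zarhin, Mori and Faltings `V` is
semisimple, also over finite extensions (`hsemisimple`), and all Tate classes of degree two are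
combinations of classes of divisors.
If `End(A) = ℤ` over the algebraic closure then `U = X` is the only strongly irreducible subspace; in
general the conditions are imposed on each strongly irreducible subspace `U` of dimension at least
two, and different `U` can use different places.

The *local operators* (`IsLocal`) are obtained from

* the operators `γ - 1`, for the elements `γ` of the group with `(γ - 1) ^ 2 = 0` (in the inertia
  groups of places of bad semistable reduction), and
* the slope operators of the Frobenius elements `F`, at places of good or bad reduction: multiplication
  by `w (a) - w (χ F) / 2` on the eigenspace of the eigenvalue `a`, where `w` is a `p`-adic valuation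
  (or any other homomorphism from the multiplicative group to the additive group; at a bad place the
  weight, for instance),

by linear combinations, commutators and by taking *components*: the component of degree `d` of an
operator `y` with respect to the slope operator of `F` is the sum of the `p (t + d) y p t`, where
`p t` is the projection to the eigenspaces of slope `t`.

The hypothesis (`HasLocalOperators`): there is a local operator `N` with `N ^ 2 = 0` such that the defects
of `N` on `U` (the rank of `N` on `U`, and the multiplicities of the nonzero eigenvalues of the operators
`N N'`, for local operators `N'` with `N' ^ 2 = 0`) have greatest common divisor one; or `U` is symplectic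
and one of the defects is two, or odd (if the weak Hodge elements generate), or prime to the dimension
of `U` (if there is an ordinary slope operator).

Examples.  Let `F` be a Frobenius element at a place of good reduction which is not supersingular,
with ARBITRARY Newton polygon, and let `p` and `q` be the projections to the parts of `X` of the lowest
and of the highest slope.  Let `y` be the operator `γ - 1` at a place of bad reduction of any toric rank, or
the slope operator of a second Frobenius element, again with any Newton polygon (`g F g⁻¹` for instance).
Then `N = p y q` and `N' = q y p` are local operators (components of `y`) of square zero.  So the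
theorem applies to `A` if one nonzero eigenvalue of `p y q y p` on `U` is simple, or more generally
if the multiplicities of these eigenvalues have greatest common divisor one, or if `U` is symplectic and
one of them is two; in particular if the lowest slope is simple on `U` and `q y p` is not zero on `U`.
There is no condition on the other places, on the multiplicities of the slopes and on the toric rank,
and none from Hodge theory; the base field can be a function field over a finite field.

The conclusion: if there are no self-dual lines and non-self-dual strongly irreducible subspaces are not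
isomorphic to proper twists of each other (there are no such lines and subspaces for types I, II) then
all Tate classes on all powers of `A` are combinations of products of Tate classes of degree two
(divisor classes) and of Weil classes, and of products of Tate classes of degree two only if there are
no Weil families, for instance if all `U` are self-dual (types I and II).  In the last case the Tate
conjecture holds for all powers of `A`, in all degrees.
-/

set_option autoImplicit false

namespace Pool.Agent.Results.MP_7b53ad_ag.MixedPlaces

open Module TensorProduct Pool.Agent.Y126.Notions Pool.Agent.R855.MT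

noncomputable section

open Pool.Agent.H204R3.SP Pool.Agent.H204R3.GP Pool.Agent.W522.U

theorem result (ℓ : ℕ) [Fact ℓ.Prime] {V Γ : Type} [AddCommGroup V] [Module ℚ_[ℓ] V]
    [FiniteDimensional ℚ_[ℓ] V] [Group Γ] (ρ : Representation ℚ_[ℓ] Γ V) (χ : Γ →* ℚ_[ℓ])
    (ω : V →ₗ[ℚ_[ℓ]] V →ₗ[ℚ_[ℓ]] ℚ_[ℓ]) (halt : ∀ v, ω v v = 0)
    (hnondeg : ∀ u, (∀ v, ω v u = 0) → u = 0)
    (hω : ∀ s u v, ω (ρ s u) (ρ s v) = χ s * ω u v)
    (hsemisimple : PotentiallySemisimple ρ)
    (hplaces : ∀ U, StronglyIrreducible (extend (AlgebraicClosure ℚ_[ℓ]) ρ) U →
      2 ≤ finrank (AlgebraicClosure ℚ_[ℓ]) U →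
      HasLocalOperators (extend (AlgebraicClosure ℚ_[ℓ]) ρ)
        ((algebraMap ℚ_[ℓ] (AlgebraicClosure ℚ_[ℓ]) : ℚ_[ℓ] →* _).comp χ) U)
    (hlines : NoSelfDualLines (extend (AlgebraicClosure ℚ_[ℓ]) ρ)
      ((algebraMap ℚ_[ℓ] (AlgebraicClosure ℚ_[ℓ]) : ℚ_[ℓ] →* _).comp χ))
    (htwists : NoProperTwists (extend (AlgebraicClosure ℚ_[ℓ]) ρ)
      ((algebraMap ℚ_[ℓ] (AlgebraicClosure ℚ_[ℓ]) : ℚ_[ℓ] →* _).comp χ)) :
    GeneratedByWeilClasses (AlgebraicClosure ℚ_[ℓ]) ρ χ ω ∧
    ((∀ (Q : Type) [Fintype Q] [Nonempty Q]
      (L : Q → Submodule (AlgebraicClosure ℚ_[ℓ]) (AlgebraicClosure ℚ_[ℓ] ⊗[ℚ_[ℓ]] V)),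
      ¬IsWeilFamily (extend (AlgebraicClosure ℚ_[ℓ]) ρ)
        ((algebraMap ℚ_[ℓ] (AlgebraicClosure ℚ_[ℓ]) : ℚ_[ℓ] →* _).comp χ) L) →
      GeneratedInDegreeTwo ρ χ) := by
  have hl1 : ∀ u, (∀ v, bcb (AlgebraicClosure ℚ_[ℓ]) ω u v = 0) → u = 0 := fun u hu =>
    bcb_nondeg_left ω hnondeg (left_nondeg ω halt hnondeg) u hu
  have hinv := bcb_inv (Ω := AlgebraicClosure ℚ_[ℓ]) ρ χ ω hω
  have hpr : HasProj (bcr ρ (AlgebraicClosure ℚ_[ℓ])) := hasProj_bcr ρ _ hsemisimple
  refine Pool.Agent.Y126.Glue.conclusion ℓ ρ χ ω halt hnondeg hω hsemisimple ?_ hlines htwists
  intro U hU h2
  exact one_of_local (bcb _ ω) hl1 hinv hpr hU (hplaces U hU h2)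

end

end Pool.Agent.Results.MP_7b53ad_ag.MixedPlaces
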