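import Mathlib
import Pool.Agent.R912.T.Fin

/-!
# The Tate conjecture for abelian fourfolds without factors of type III and IV

Let `A` be an abelian fourfold over a finitely generated field `k` of any characteristic, `ℓ` a prime
number different from it, `V = V_ℓ(A)` the rational Tate module with the action `ρ` of the Galois
group `Γ`, `b` a basis of the lattice `T_ℓ(A)`, `χ` the cyclotomic character and `ω` the Weil pairing of
a polarization; `K` is the algebraic closure of `ℚ_ℓ` and `X = K ⊗ V`. By theorems of Zarhin, Mori and
Faltings `V` is semisimple, also over finite extensions of `k`, and the endomorphisms of `V` which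
commute with the Galois group come from endomorphisms of `A`.

We suppose that all strongly irreducible subspaces of `X` are symplectic: the simple factors of `A`
over the separable closure of `k` are of type I or II in the classification of Albert. There is no
condition on the Frobenius elements or on the reductions of `A`.

The theorem: all Tate classes in `H ^ 4(A)(2)` are linear combinations of products of two Tate classes
of degree two, which are classes of divisors by the theorems of Zarhin, Mori and Faltings. As the Tate
conjecture in codimension one is known, and implies the one in codimension three by the hard Lefschetz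
theorem, the Tate conjecture holds for `A` in all codimensions.

In characteristic zero this is known (Moonen and Zarhin): there the weights of the Galois
representation are minuscule by Hodge-Tate theory. In positive characteristic nothing of this kind is
available, except for instance for ordinary abelian varieties, and a priori `Γ` may act through groups
like `SL_2` in the representations `Sym ^ 3`, `Sym ^ 5`, `Sym ^ 7` or `SL_2 × SL_2` in `Std ⊗ Sym ^ 2`.

The proof. Let `𝔤` be the Lie algebra of the operators on `X` that kill all Tate forms of all degrees.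
By means of the Jordan decomposition an element `g` of a neat subgroup of finite index of `Γ` is in the
associative algebra generated by `𝔤`: the semisimple part is a polynomial in operators of `𝔤` which are
obtained from additive functions on the multiplicative group, and the logarithm of the unipotent
part is in `𝔤` (`Pool/Agent/R912/T/Jor.lean`). So the commutant of `𝔤` is the space of the operators that
commute with a subgroup of finite index, the irreducible subspaces of `𝔤` are the strongly
irreducible subspaces, and the Killing form of `𝔤` is nondegenerate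
(`Pool/Agent/R912/T/Gal.lean`, `Pool/Agent/R912/Q/TH2.lean`). The main part of the proof, in the folder
`Pool/Agent/R912/Q`, shows for all semisimple Lie algebras `𝔤` of operators on a symplectic space of
dimension eight, such that all irreducible subspaces have even dimension and the isotypic ones are
nondegenerate, that an alternating form of degree four killed by `𝔤` is killed by all operators
skew for `ω` which commute with the commutant of `𝔤`: it goes through the possible systems of weights.
These operators include the operators `u ↦ B(v, u) v` on the irreducible subspaces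
(`Pool/Agent/R912/T/Trans.lean`), and the theorem on invariants of starting file `Pool.Agent.W522.U.C9`
applies to the group of the similitudes which commute with the commutant and fix the form up to
the square of the multiplier.
-/

namespace Pool.Agent.Results.MP_7b53ad_ag.AbelianFourfolds

open Module TensorProduct Pool.Agent.Y126.Notions

noncomputable section

section classes

variable {k V Γ : Type} [Field k] [AddCommGroup V] [Module k V] [Group Γ]

/-- A class in `H ^ 2m(A)(m)`, that is an alternating form `f` in `2 m` variables (indexed by `κ`) on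
the Tate module, is a Tate class if a subgroup of finite index fixes it. -/
def IsTateClassOn (ρ : Representation k Γ V) (χ : Γ →* k) (m : ℕ) {κ : Type}
    (f : V [⋀^κ]→ₗ[k] k) : Prop :=
  ∃ Δ : Subgroup Γ, Δ.FiniteIndex ∧ ∀ s ∈ Δ, ∀ v : κ → V, f (fun l => ρ s (v l)) = χ s ^ m * f v

/-- The form `g` is (up to a nonzero rational factor) the product `B 0 ∧ B 1` of forms of degree
two. -/
def IsProductOfTwo (B : Fin 2 → V [⋀^Fin 2]→ₗ[k] k) (g : V [⋀^Fin 2 × Fin 2]→ₗ[k] k) : Prop :=
  ∀ v, g v = ∑ σ : Equiv.Perm (Fin 2 × Fin 2), ((Equiv.Perm.sign σ : ℤ) : k) *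
    ∏ l, B l ![v (σ (l, 0)), v (σ (l, 1))]

end classes

/-- All strongly irreducible subspaces are symplectic. -/
def AllSymplectic {K X Γ : Type} [Field K] [AddCommGroup X] [Module K X] [Group Γ]
    (R : Representation K Γ X) (χ : Γ →* K) : Prop :=
  ∀ U, StronglyIrreducible R U → IsSymplectic R χ U

/-- **Tate classes of degree four on abelian fourfolds.** -/
theorem result (ℓ : ℕ) [Fact ℓ.Prime] {V Γ : Type} [AddCommGroup V] [Module ℚ_[ℓ] V]
    [FiniteDimensional ℚ_[ℓ] V] (hV : finrank ℚ_[ℓ] V = 8) [Group Γ]
    (ρ : Representation ℚ_[ℓ] Γ V) (χ : Γ →* ℚ_[ℓ]) {ι : Type} [Fintype ι] [DecidableEq ι]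
    (b : Basis ι ℚ_[ℓ] V) (hint : ∀ g i j, ‖LinearMap.toMatrix b b (ρ g) i j‖ ≤ 1)
    (ω : V →ₗ[ℚ_[ℓ]] V →ₗ[ℚ_[ℓ]] ℚ_[ℓ]) (halt : ∀ v, ω v v = 0)
    (hnondeg : ∀ u, (∀ v, ω v u = 0) → u = 0)
    (hω : ∀ s u v, ω (ρ s u) (ρ s v) = χ s * ω u v)
    (hsemisimple : PotentiallySemisimple ρ)
    (hsymplectic : AllSymplectic (extend (AlgebraicClosure ℚ_[ℓ]) ρ)
      ((algebraMap ℚ_[ℓ] (AlgebraicClosure ℚ_[ℓ]) : ℚ_[ℓ] →* _).comp χ))
    (f : V [⋀^Fin 2 × Fin 2]→ₗ[ℚ_[ℓ]] ℚ_[ℓ]) (hf : IsTateClassOn ρ χ 2 f) :
    f ∈ Submodule.span ℚ_[ℓ] {g : V [⋀^Fin 2 × Fin 2]→ₗ[ℚ_[ℓ]] ℚ_[ℓ] |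
      ∃ B : Fin 2 → V [⋀^Fin 2]→ₗ[ℚ_[ℓ]] ℚ_[ℓ],
        (∀ l, IsTateClassOn ρ χ 1 (B l)) ∧ IsProductOfTwo B g} := by
  refine Submodule.span_mono ?_ (Pool.Agent.R912.T.main_four ℓ hV ρ χ b hint ω halt hnondeg hω
    hsemisimple hsymplectic f hf)
  rintro g ⟨B, hB, hg⟩
  refine ⟨B, fun l => ?_, hg⟩
  obtain ⟨Δ, hΔ, h⟩ := hB l
  refine ⟨Δ, hΔ, fun s hs v => ?_⟩
  rw [pow_one]
  exact h s hs v

end

end Pool.Agent.Results.MP_7b53ad_ag.AbelianFourfolds
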