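import Pool.Agent.R940.SConv

/-!
# Tate classes and algebraic cycles on the products of an abelian variety with powers

Let `X` and `Z` be abelian varieties over a field `k` which is finitely generated over its prime
field, or, more generally, smooth projective varieties over `k` whose even Künneth projectors are
algebraic (all abelian varieties, all varieties over finite fields, by Katz and Messing, complete
intersections, varieties dominated by products of such, ...), `d` the dimension of `X`,
`b` its total Betti number and `b(Z)` that of `Z`, for `ℓ`-adic cohomology.
For `0 ≤ i ≤ dim Z` and `n ≥ 0` let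

* `t i n` be the dimension of the space of the Tate classes of codimension `(n + 1) d + i` on
  `Z × X ^ (2 n + 2)` (the classes on which a subgroup of finite index of the Galois group acts like
  on the Tate twist),
* `r i n` the rank of the group of the cycles of codimension `(n + 1) d + i` on `Z × X ^ (2 n + 2)`
  modulo numerical equivalence,
* `ρ n > 0` the rank of the group of cycles of codimension `(n + 1) d` on `X ^ (2 n + 2)` modulo
  numerical equivalence.

Then `r i n ≤ t i n`, `r i n ≤ b(Z) ρ n` and `t i n ≤ b(Z) (n + 2) ^ (b ^ 2) ρ n`.

Theorem. For each `κ`, either the Tate conjecture holds for `Z × X ^ (κ + 1)` in all codimensions and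
over all finite extensions, and numerical and homological equivalence agree there, or there is an
`i ≤ dim Z` such that for ALL `n ≥ 1`

  `t i n ≥ r i n + (1 - (κ + 1) b ^ (2 κ + 4) log (n + 2) / n) ρ n`.

In particular `t i n ≥ (1 + (1 - ε n) / b(Z)) r i n`, with the explicit error `ε n` above (as long as it is
at most one). So for an ARBITRARY `Z` the strong Tate conjecture holds for all products `Z × X ^ n`, or
at least about the proportion `1 / (b(Z) + 1)` of the Tate classes on `Z × X ^ (2 n + 2)`, in one of
`dim Z + 1` codimensions, for all large `n`, is not accounted for by cycles modulo numerical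
equivalence; and to prove the conjecture for `Z × X ^ (κ + 1)` it is enough to prove
`dim Z + 1` numerical inequalities on a single product `Z × X ^ (2 n + 2)`, which allow for
an error that is a fixed proportion of the number of the cycles.

The theorem holds for any group `Γ` that acts on a Weil cohomology like a Galois group
(`GalSys`): the action respects the products, the degrees, the orientations up to the twist, the
classes of cycles up to the twist, each of which is fixed up to the twist by a subgroup of
finite index, and pull-backs are respected by subgroups of finite index. No finiteness,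
semisimplicity or continuity of the action is assumed.
-/

open CategoryTheory AlgebraicGeometry

universe u v w

namespace Pool.Agent.Results.MP_7b53ad_ag.ExcessOnProducts

open Pool.Agent.H914 Pool.Agent.H447 Pool.Agent.W534 Pool.Agent.Y163 Pool.Agent.R940
  VarClass Obj

/-- The strong Tate conjecture holds for `Z × X ^ (κ + 1)`, or the Tate classes on all products
`Z × X ^ (2 n + 2)` exceed the cycles modulo numerical equivalence by about as many classes
as there are numerical classes on `X ^ (2 n + 2)`. -/
theorem result {k : Type u} [Field k] {𝒱 : VarClass k} {ops : CycleOps 𝒱}
    (W : WeilCohomology.{u, v} ops) {Γ : Type w} [Group Γ] (G : GalSys W Γ)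
    (X Z : 𝒱.Obj) (hX : SignStd W X) (hZ : SignStd W Z)
    (D : X.Cycles) (hD : X.IsCyc 1 D) (hbig : Big ops X D) :
    (∀ n, 0 < rhoRk ops X n) ∧
    (∀ i n, i ≤ Z.dim →
      cycRkOn ops Z X i n ≤ tateRkOn G Z X i n ∧
      cycRkOn ops Z X i n ≤ betti W Z * rhoRk ops X n ∧
      tateRkOn G Z X i n ≤ betti W Z * ((n + 2) ^ (betti W X ^ 2) * rhoRk ops X n)) ∧
    ∀ κ, StrongTateS G (Z.prod (pw X κ)) ∨ ∃ i, i ≤ Z.dim ∧ TateExcess G Z X κ i :=
  stm_excess hX hZ hD hbig G

end Pool.Agent.Results.MP_7b53ad_ag.ExcessOnProducts
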